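import Pool.Agent.Helper18.TR.St

/-! # TR module BO: Brun-Hooley inequalities -/

set_option autoImplicit false

namespace Pool.Agent.Helper18.TR

open Finset Pool.Agent.Helper18.ED

theorem bo_lower {I : Finset ℕ} {x y E : ℕ → ℝ} (h : ∀ i, 0 ≤ x i ∧ x i ≤ y i ∧ y i ≤ x i + E i)
    (hE : ∀ i, 0 ≤ E i) :
    ∏ i ∈ I, y i - ∑ i ∈ I, E i * ∏ j ∈ I.erase i, y j ≤ ∏ i ∈ I, x i := by
  classical
  induction I using Finset.induction_on with
  | empty => simp
  | insert a I ha ih =>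
    have hX : 0 ≤ ∏ i ∈ I, x i := Finset.prod_nonneg fun i _ => (h i).1
    have hXY : ∏ i ∈ I, x i ≤ ∏ i ∈ I, y i :=
      Finset.prod_le_prod (fun i _ => (h i).1) fun i _ => (h i).2.1
    have hy : 0 ≤ y a := (h a).1.trans (h a).2.1
    have hs : ∑ i ∈ insert a I, E i * ∏ j ∈ (insert a I).erase i, y j =
        E a * ∏ j ∈ I, y j + y a * ∑ i ∈ I, E i * ∏ j ∈ I.erase i, y j := by
      rw [Finset.sum_insert ha, Finset.erase_insert ha, Finset.mul_sum]
      congr 1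
      refine Finset.sum_congr rfl fun i hi => ?_
      have hia : i ≠ a := fun h => ha (h ▸ hi)
      rw [Finset.erase_insert_of_ne (Ne.symm hia), Finset.prod_insert]
      · ring
      · intro h'
        exact ha (Finset.mem_of_mem_erase h')
    rw [Finset.prod_insert ha, Finset.prod_insert ha, hs]
    have h1 : y a * (∏ i ∈ I, y i - ∑ i ∈ I, E i * ∏ j ∈ I.erase i, y j) ≤
        y a * ∏ i ∈ I, x i := mul_le_mul_of_nonneg_left ih hy
    have h2 : y a * ∏ i ∈ I, x i ≤ (x a + E a) * ∏ i ∈ I, x i :=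
      mul_le_mul_of_nonneg_right (h a).2.2 hX
    have h3 : E a * ∏ i ∈ I, x i ≤ E a * ∏ i ∈ I, y i := mul_le_mul_of_nonneg_left hXY (hE a)
    nlinarith

theorem bo_idx_mem (w p : ℕ) : idx w p ∈ range (w + 1) := by
  rw [Finset.mem_range, Nat.lt_succ_iff]
  exact (Nat.log_le_self _ _).trans (Nat.log_le_self _ _)

theorem bo_disjoint (w b : ℕ) (Q : Finset ℕ) : Disjoint (fam0 w b Q) (fam1 w b Q) := by
  rw [Finset.disjoint_left]
  intro T h0 h1
  unfold fam0 at h0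
  unfold fam1 at h1
  obtain ⟨-, h0⟩ := (@Finset.mem_filter _ _ (_) _ _).1 h0
  obtain ⟨-, i, hi, h1, -⟩ := (@Finset.mem_filter _ _ (_) _ _).1 h1
  have := h0 i hi
  omega

theorem pf_Bonf (hF0 : StFact0) (hF1 : StFact1) (hS : StSym) (hE : StEsymm) : StBonf := by
  intro w b Q g hb hg
  have hgi : ∀ i, ∀ p ∈ Qi w Q i, 0 ≤ g p ∧ g p ≤ 1 := fun i p hp =>
    hg p (Finset.mem_filter.1 hp).1
  have hev : ∀ i, Even (b + 2 * i) := fun i => hb.add (even_two_mul i)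
  have h1 : ∀ i, 0 ≤ ∏ p ∈ Qi w Q i, (1 - g p) ∧
      ∏ p ∈ Qi w Q i, (1 - g p) ≤ Yy (b + 2 * i) (Qi w Q i) g ∧
      Yy (b + 2 * i) (Qi w Q i) g ≤ ∏ p ∈ Qi w Q i, (1 - g p) +
        ee (b + 2 * i + 1) (Qi w Q i) g := by
    intro i
    refine ⟨Finset.prod_nonneg fun p hp => ?_, (hS _ _ g (hev i) (hgi i)).1,
      (hS _ _ g (hev i) (hgi i)).2⟩
    linarith [(hgi i p hp).2]
  have h2 : ∀ i, 0 ≤ ee (b + 2 * i + 1) (Qi w Q i) g := fun i =>
    (hE _ _ g fun p hp => (hgi i p hp).1).1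
  have h3 : ∏ i ∈ range (w + 1), ∏ p ∈ Qi w Q i, (1 - g p) = ∏ p ∈ Q, (1 - g p) :=
    Finset.prod_fiberwise_of_maps_to (fun p _ => bo_idx_mem w p) _
  constructor
  · rw [Finset.sum_union (bo_disjoint w b Q), hF0, hF1 w b Q g hb, ← h3]
    have := bo_lower (I := range (w + 1)) h1 h2
    linarith
  · rw [hF0, ← h3]
    exact Finset.prod_le_prod (fun i _ => (h1 i).1) fun i _ => (h1 i).2.1

end Pool.Agent.Helper18.TR
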