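import Pool.Agent.Helper18.TR.St

/-! # TR module CO: counting cubes with divisibility conditions -/

set_option autoImplicit false

namespace Pool.Agent.Helper18.TR

open Finset Pool.Agent.Helper18.ED

theorem co_vert {s : ℕ} {p : ℤ} {x a : (Fin s → ℤ) × ℤ} (h1 : ∀ i, p ∣ x.1 i - a.1 i)
    (h2 : p ∣ x.2 - a.2) (ω : Finset (Fin s)) : p ∣ vert x.1 x.2 ω - vert a.1 a.2 ω := by
  unfold vert
  have h3 : x.2 + ∑ i ∈ ω, x.1 i - (a.2 + ∑ i ∈ ω, a.1 i) =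
      (x.2 - a.2) + ∑ i ∈ ω, (x.1 i - a.1 i) := by
    rw [Finset.sum_sub_distrib]
    ring
  rw [h3]
  exact dvd_add h2 (Finset.dvd_sum fun i _ => h1 i)

theorem co_hit {s : ℕ} (W b : ℕ) (S : Finset (Finset (Fin s))) {p : ℕ} {x a : (Fin s → ℤ) × ℤ}
    (h1 : ∀ i, (p : ℤ) ∣ x.1 i - a.1 i) (h2 : (p : ℤ) ∣ x.2 - a.2) :
    hit W b S p x ↔ hit W b S p a := by
  unfold hit
  apply exists_congr
  intro ω
  apply and_congr Iff.rfl
  have h3 : (p : ℤ) ∣ (W * vert x.1 x.2 ω + b) - (W * vert a.1 a.2 ω + b) := by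
    have h4 : (W * vert x.1 x.2 ω + b) - (W * vert a.1 a.2 ω + b) =
        (W : ℤ) * (vert x.1 x.2 ω - vert a.1 a.2 ω) := by ring
    rw [h4]
    exact (co_vert h1 h2 ω).mul_left _
  exact (dvd_iff_dvd_of_dvd_sub h3)

/-- residues modulo `q` -/
def coRes (s q : ℕ) (x : (Fin s → ℤ) × ℤ) : (Fin s → ℤ) × ℤ := (fun i => x.1 i % q, x.2 % q)

theorem co_res_mem {s q : ℕ} (hq : 1 ≤ q) (x : (Fin s → ℤ) × ℤ) : coRes s q x ∈ box s q := by
  have hq' : (0 : ℤ) < q := by exact_mod_cast hq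
  unfold box coRes
  simp only [Finset.mem_product, Fintype.mem_piFinset, Finset.mem_Ico]
  exact ⟨fun i => ⟨Int.emod_nonneg _ hq'.ne', Int.emod_lt_of_pos _ hq'⟩,
    Int.emod_nonneg _ hq'.ne', Int.emod_lt_of_pos _ hq'⟩

theorem co_res_eq {s q : ℕ} {x a : (Fin s → ℤ) × ℤ} (ha : a ∈ box s q) :
    coRes s q x = a ↔ (∀ i, (q : ℤ) ∣ x.1 i - a.1 i) ∧ (q : ℤ) ∣ x.2 - a.2 := by
  unfold box at ha
  simp only [Finset.mem_product, Fintype.mem_piFinset, Finset.mem_Ico] at ha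
  obtain ⟨h1, h2⟩ := ha
  constructor
  · rintro rfl
    exact ⟨fun i => Int.dvd_self_sub_emod, Int.dvd_self_sub_emod⟩
  · rintro ⟨h3, h4⟩
    refine Prod.ext (funext fun i => ?_) ?_
    · show x.1 i % q = a.1 i
      rw [Int.emod_eq_emod_iff_emod_sub_eq_zero.2 (Int.emod_eq_zero_of_dvd (h3 i))]
      exact Int.emod_eq_of_lt (h1 i).1 (h1 i).2
    · show x.2 % q = a.2
      rw [Int.emod_eq_emod_iff_emod_sub_eq_zero.2 (Int.emod_eq_zero_of_dvd h4)]
      exact Int.emod_eq_of_lt h2.1 h2.2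

theorem pf_Count (hE : StEqui) (hC : StCRT) (hL : StLocal) : StCount := by
  classical
  intro s
  obtain ⟨C, hC0, hEq⟩ := hE s
  refine ⟨C, hC0, ?_⟩
  intro D W b S T hT hD
  set q : ℕ := ∏ p ∈ T, p with hq
  have hpos : ∀ p ∈ T, 0 < p := fun p hp => (hT p hp).1.pos
  have hq1 : 1 ≤ q := Finset.prod_pos hpos
  have hqR : (0 : ℝ) < q := by exact_mod_cast hq1
  set Ω : Finset ((Fin s → ℤ) × ℤ) := (box s q).filter (fun x => ∀ p ∈ T, hit W b S p x) with hΩ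
  set N : (Fin s → ℤ) × ℤ → ℕ := fun a => ((cube s D).filter (fun x =>
    (∀ i, (q : ℤ) ∣ x.1 i - a.1 i) ∧ (q : ℤ) ∣ x.2 - a.2)).card with hN
  have hdvd : ∀ p ∈ T, (p : ℤ) ∣ (q : ℤ) := fun p hp =>
    Int.natCast_dvd_natCast.2 (Finset.dvd_prod_of_mem _ hp)
  have hiff : ∀ x a : (Fin s → ℤ) × ℤ, (∀ i, (q : ℤ) ∣ x.1 i - a.1 i) → (q : ℤ) ∣ x.2 - a.2 →
      ((∀ p ∈ T, hit W b S p x) ↔ ∀ p ∈ T, hit W b S p a) := by
    intro x a h1 h2
    refine forall₂_congr fun p hp => ?_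
    exact co_hit W b S (fun i => (hdvd p hp).trans (h1 i)) ((hdvd p hp).trans h2)
  have hcount : ((cube s D).filter (fun x => ∀ p ∈ T, hit W b S p x)).card = ∑ a ∈ Ω, N a := by
    rw [Finset.card_eq_sum_card_fiberwise (f := coRes s q) (t := Ω)]
    · refine Finset.sum_congr rfl fun a ha => ?_
      obtain ⟨ha1, ha2⟩ := Finset.mem_filter.1 ha
      rw [hN]
      congr 1
      ext x
      simp only [Finset.mem_filter]
      constructor
      · rintro ⟨⟨h1, -⟩, h3⟩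
        exact ⟨h1, (co_res_eq ha1).1 h3⟩
      · rintro ⟨h1, h2⟩
        exact ⟨⟨h1, (hiff x a h2.1 h2.2).2 ha2⟩, (co_res_eq ha1).2 h2⟩
    · intro x hx
      obtain ⟨-, hx2⟩ := Finset.mem_filter.1 hx
      have h1 := (co_res_eq (co_res_mem hq1 x)).1 rfl
      exact Finset.mem_filter.2 ⟨co_res_mem hq1 x, (hiff x _ h1.1 h1.2).1 hx2⟩
  have hgg : ∀ p ∈ T, (((box s p).filter (hit W b S p)).card : ℝ) = gg W b S p * (p : ℝ) ^ (s + 1) := by
    intro p hp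
    have hp0 : (p : ℝ) ^ (s + 1) ≠ 0 := pow_ne_zero _ (by exact_mod_cast (hpos p hp).ne')
    unfold gg
    rw [div_mul_cancel₀ _ hp0]
  have hΩc : ((Ω.card : ℕ) : ℝ) = (∏ p ∈ T, gg W b S p) * (q : ℝ) ^ (s + 1) := by
    have h1 := hC s W b S T (fun p hp => (hT p hp).1)
    rw [hΩ]
    rw [show ((box s q).filter (fun x => ∀ p ∈ T, hit W b S p x)).card =
      ∏ p ∈ T, ((box s p).filter (hit W b S p)).card by convert h1]
    push_cast
    rw [Finset.prod_congr rfl hgg, Finset.prod_mul_distrib, Finset.prod_pow, hq]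
    push_cast
    rfl
  have hΩle : ((Ω.card : ℕ) : ℝ) ≤ (S.card : ℝ) ^ T.card * (q : ℝ) ^ s := by
    rw [hΩc]
    have h1 : ∏ p ∈ T, gg W b S p ≤ ∏ p ∈ T, ((S.card : ℝ) / p) := by
      refine Finset.prod_le_prod (fun p _ => ?_) fun p hp =>
        (hL s W b S p (hT p hp).1 (hT p hp).2).1
      unfold gg
      positivity
    have h2 : ∏ p ∈ T, ((S.card : ℝ) / p) = (S.card : ℝ) ^ T.card / q := by
      rw [Finset.prod_div_distrib, Finset.prod_const, hq]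
      push_cast
      rfl
    calc (∏ p ∈ T, gg W b S p) * (q : ℝ) ^ (s + 1)
        ≤ ((S.card : ℝ) ^ T.card / q) * (q : ℝ) ^ (s + 1) := by
          rw [← h2]
          exact mul_le_mul_of_nonneg_right h1 (by positivity)
      _ = (S.card : ℝ) ^ T.card * (q : ℝ) ^ s := by
          rw [pow_succ]
          field_simp
  have hmain : |(∑ a ∈ Ω, (N a : ℝ)) - (Ω.card : ℝ) * (((cube s D).card : ℝ) / (q : ℝ) ^ (s + 1))| ≤
      (Ω.card : ℝ) * (C * ((D : ℝ) / q) ^ s) := by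
    have h1 : (∑ a ∈ Ω, (N a : ℝ)) - (Ω.card : ℝ) * (((cube s D).card : ℝ) / (q : ℝ) ^ (s + 1)) =
        ∑ a ∈ Ω, ((N a : ℝ) - ((cube s D).card : ℝ) / (q : ℝ) ^ (s + 1)) := by
      rw [Finset.sum_sub_distrib, Finset.sum_const, nsmul_eq_mul]
    rw [h1]
    refine (Finset.abs_sum_le_sum_abs _ _).trans ?_
    have h2 : ∀ a ∈ Ω, |(N a : ℝ) - ((cube s D).card : ℝ) / (q : ℝ) ^ (s + 1)| ≤
        C * ((D : ℝ) / q) ^ s := fun a ha => hEq D q hq1 hD a (Finset.mem_filter.1 ha).1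
    refine (Finset.sum_le_sum h2).trans ?_
    rw [Finset.sum_const, nsmul_eq_mul]
  rw [hcount]
  push_cast
  have h3 : (Ω.card : ℝ) * (((cube s D).card : ℝ) / (q : ℝ) ^ (s + 1)) =
      ((cube s D).card : ℝ) * ∏ p ∈ T, gg W b S p := by
    rw [hΩc]
    field_simp
  rw [h3] at hmain
  refine hmain.trans ?_
  calc (Ω.card : ℝ) * (C * ((D : ℝ) / q) ^ s)
      ≤ ((S.card : ℝ) ^ T.card * (q : ℝ) ^ s) * (C * ((D : ℝ) / q) ^ s) :=
        mul_le_mul_of_nonneg_right hΩle (by positivity)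
    _ = C * (S.card : ℝ) ^ T.card * (D : ℝ) ^ s := by
        rw [div_pow]
        field_simp

end Pool.Agent.Helper18.TR
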