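import Pool.Agent.Helper13.TR.StB

/-!
# Project TR, module T1W: the product theorem, connected case
-/

set_option autoImplicit false

namespace Pool.Agent.Helper30.TR

open Set Topology Pool.Agent.Helper13.TR

theorem hT1W (hCB : StCB) (hSEP : StSEP) (hNLI : StNLI) : StT1W := by
  intro W Y _ _ _ _ _ hW hY s q hemb w₀ r
  by_contra hno
  push Not at hno
  -- a neighbourhood of `q w₀` without full lines
  have hopen : IsOpen (range fun w => (s w, q w))ᶜ := hemb.isClosed_range.isOpen_compl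
  have hc : Continuous fun y : Y => ((r, y) : ℝ × Y) := by fun_prop
  obtain ⟨O, hOd⟩ : ∃ O : Set Y, O = (fun y : Y => ((r, y) : ℝ × Y)) ⁻¹' (range fun w => (s w, q w))ᶜ := ⟨_, rfl⟩
  have hO : IsOpen O := by rw [hOd]; exact hopen.preimage hc
  have hO0 : q w₀ ∈ O := by
    rw [hOd]
    rintro ⟨w, hw⟩
    have h1 := congrArg Prod.fst hw
    have h2 := congrArg Prod.snd hw
    exact hno w h2 h1
  have hOr : ∀ y ∈ O, ∀ w, q w = y → s w ≠ r := by
    intro y hy w hw hs
    rw [hOd] at hy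
    exact hy ⟨w, by simp [hw, hs]⟩
  -- a point on another line
  obtain ⟨w₁, hw₁⟩ : ∃ w₁, q w₁ ≠ q w₀ := by
    by_contra hall
    push Not at hall
    refine hNLI W hW s fun w w' h => hemb.injective ?_
    show (s w, q w) = (s w', q w')
    rw [h, hall w, hall w']
  obtain ⟨E, F, hE, hF, hEF, hEO, hyF, hZ⟩ := hY (q w₀) (O ∩ {q w₁}ᶜ)
    (hO.inter isClosed_singleton.isOpen_compl) ⟨hO0, fun h => hw₁ h.symm⟩
  have hA : PP (q ⁻¹' (E ∩ F)) 1 := hCB W Y hW s q hemb (E ∩ F) hZ
    fun y hy => ⟨r, hOr y (hEO hy.1).1⟩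
  refine hSEP W (q ⁻¹' (E ∩ F)) (q ⁻¹' Fᶜ) (q ⁻¹' Eᶜ) hA (hF.isOpen_compl.preimage q.continuous)
    (hE.isOpen_compl.preimage q.continuous) ?_ ?_ ⟨w₀, hyF⟩ ⟨w₁, fun h => (hEO h).2 rfl⟩
  · ext w
    simp only [mem_inter_iff, mem_preimage, mem_compl_iff, mem_empty_iff_false, iff_false, not_and, not_not]
    intro h
    have : q w ∈ E ∪ F := by rw [hEF]; trivial
    rcases this with h1 | h1
    · exact h1
    · exact absurd h1 h
  · ext w
    simp only [mem_union, mem_preimage, mem_compl_iff, mem_inter_iff]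
    tauto

end Pool.Agent.Helper30.TR
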